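import Pool.Agent.H122Z.SortMain

set_option autoImplicit false

namespace Pool.Agent.Results.MP_92d45d_co.AAsymptotic

open Pool.Agent.H122Z.Srt

/-- The number `a n` of sorted permutations of `1, …, n` satisfies
`n! L^(n+1) ≤ a n ≤ (1 + 3/(2n)) n! L^(n+1)` for a constant `L = 0.697852…`. -/
theorem result : ∃ L : ℝ, 0.697852 < L ∧ L < 0.697853 ∧
    ∀ s : List ℕ → List ℕ, s [] = [] →
      (∀ (A B : List ℕ) (m : ℕ), (A ++ m :: B).Nodup → (∀ x ∈ A, x < m) → (∀ x ∈ B, x < m) →
        s (A ++ m :: B) = s A ++ s B ++ [m]) →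
      ∀ n : ℕ, 1 ≤ n →
        (n.factorial : ℝ) * L ^ (n + 1)
            ≤ (((List.range' 1 n).permutations.toFinset.image s).card : ℝ) ∧
          (((List.range' 1 n).permutations.toFinset.image s).card : ℝ)
            ≤ (1 + 3 / (2 * (n : ℝ))) * ((n.factorial : ℝ) * L ^ (n + 1)) := by
  obtain ⟨ρ, r1, r2, h⟩ := main_rho
  have h0 : 0 < ρ := by linarith
  refine ⟨1 / ρ, ?_, ?_, fun s s0 s1 n hn => ?_⟩
  · rw [lt_div_iff₀ h0]; linarith
  · rw [div_lt_iff₀ h0]; linarith
  have e := card_image_sort s0 s1 (w := List.range' 1 n) List.nodup_range'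
    (by intro e; have := congrArg List.length e; simp at this; omega)
  rw [List.length_range'] at e
  have e' : ((List.range' 1 n).permutations.toFinset.image s).card = rr 1 n := by convert e
  obtain ⟨a, b⟩ := h n hn
  have hn' : (0 : ℝ) < n := by exact_mod_cast hn
  have e2 : (rr 1 n : ℝ) = xx ρ 1 n * ((n.factorial : ℝ) * (1 / ρ) ^ (n + 1)) := by
    rw [xx, one_div, inv_pow]; field_simp
  have hp : 0 < (n.factorial : ℝ) * (1 / ρ) ^ (n + 1) := by positivity
  rw [e', e2]
  refine ⟨le_mul_of_one_le_left hp.le a, mul_le_mul_of_nonneg_right ?_ hp.le⟩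
  have : xx ρ 1 n - 1 ≤ 3 / (2 * (n : ℝ)) := by
    rw [le_div_iff₀ (by positivity)]; linarith
  linarith

end Pool.Agent.Results.MP_92d45d_co.AAsymptotic
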